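import Pool.Agent.Helper15.PL.D0
import Pool.Agent.Helper15.PL.D1
import Pool.Agent.Helper15.PL.D2
import Pool.Agent.Helper15.PL.RF

/-!
# The case split

From a flag system on 14 lines with at least 360 triangular flags we obtain a chart in one of the
normal positions which are refuted by the finite certificates.
-/

namespace Pool.Agent.Helper54.PL

open Pool.Agent.Helper15.PL Pool.Agent.Helper15.PL.FlagSys

/-- Total slack at the vertex of `f`. -/
def vslack {n : ℕ} (S : FlagSys n) (f : S.F) : ℤ :=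
  ∑ g ∈ Finset.univ.filter (fun g => S.vert g = S.vert f), S.slack g

/-- There is no waste at the vertices on the line `i`. -/
def ZeroLine {n : ℕ} (S : FlagSys n) (i : Fin n) : Prop := ∀ f, i ∈ S.vert f → S.waste f = 0

/-- The eight rays at the first vertex, in the order of the rotation. -/
def rayI : Fin 8 → Fin 14 := ![0, 1, 2, 3, 0, 1, 2, 3]
def rayA : Fin 8 → Fin 14 := ![1, 0, 0, 0, 1, 0, 0, 0]
def rayD (q : Fin 8) : Bool := decide (q.1 < 4)

/-- The patterns of full neighbours of a vertex on four lines. -/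
def pats : List (Fin 8 → Bool) :=
  [![false, false, false, false, false, false, false, false],
   ![true, false, false, false, false, false, false, false],
   ![true, false, true, false, false, false, false, false],
   ![true, false, false, true, false, false, false, false],
   ![true, false, false, false, true, false, false, false],
   ![true, false, true, false, true, false, false, false],
   ![true, false, true, false, false, true, false, false],
   ![true, false, true, false, true, false, true, false]]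

/-- What holds for the standard chart in all cases. -/
structure Std (S : FlagSys 14) (W : Wiring 14) (c : Chart S W) : Prop where
  facts : S.Facts
  nonfull : ∀ f : S.F, ∃ l, l ∉ S.vert f
  le8 : ∀ f, S.mult f ≤ 8
  norm : ∀ j k : Fin 14, 0 < j → j < k → W.X 0 j ≤ W.X 0 k
  real : ∃ a : Fin 14 → V3, Realizes a W
  total : ∑ f, (S.waste f : ℤ) + ∑ f, S.slack f ≤ 16
  vs : ∀ f, 0 ≤ vslack S f
  front : ∀ l : Fin 14, l ≠ 0 → (W.X 0 l = W.X 0 1 ↔ l.1 < S.mult (c.Φ 0 1 true true))

/-- The first vertex lies on five lines. -/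
structure CaseC (S : FlagSys 14) (W : Wiring 14) (c : Chart S W) : Prop where
  le : ∀ f, S.mult f ≤ 5
  five : S.mult (c.Φ 0 1 true true) = 5

/-- The first vertex lies on four lines, its slack is minimal, and the full neighbours are given by
the pattern. -/
structure CaseB (S : FlagSys 14) (W : Wiring 14) (c : Chart S W) (p : Fin 8 → Bool) : Prop where
  le : ∀ f, S.mult f ≤ 4
  four : S.mult (c.Φ 0 1 true true) = 4
  min : ∀ g, S.mult g = 4 → vslack S (c.Φ 0 1 true true) ≤ vslack S g
  pat : ∀ q s, S.full (S.s0 (c.Φ (rayI q) (rayA q) (rayD q) s)) ↔ p q = true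

/-- No vertex on more than three lines, and no waste on the first line. -/
structure CaseA (S : FlagSys 14) (W : Wiring 14) (c : Chart S W) : Prop where
  le : ∀ f, S.mult f ≤ 3
  zero : ZeroLine S (c.perm 0)

structure CaseA1 (S : FlagSys 14) (W : Wiring 14) (c : Chart S W) : Prop
    extends CaseA S W c where
  ty : S.ty21 (c.Φ 0 1 false false)

structure CaseA2 (S : FlagSys 14) (W : Wiring 14) (c : Chart S W) : Prop
    extends CaseA S W c where
  noty : ∀ f, c.perm 0 ∈ S.vert f → ¬ S.ty21 f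
  full : S.full (c.Φ 0 1 true true)

structure CaseA3 (S : FlagSys 14) (W : Wiring 14) (c : Chart S W) : Prop
    extends CaseA S W c where
  noty : ∀ f, c.perm 0 ∈ S.vert f → ¬ S.ty21 f
  nofull : ∀ f, c.perm 0 ∈ S.vert f → ¬ S.full f
  two : S.mult (c.Φ 0 1 true true) = 2
  three : S.mult (c.Φ 0 13 true true) = 3

structure CaseA5 (S : FlagSys 14) (W : Wiring 14) (c : Chart S W) : Prop
    extends CaseA S W c where
  zero' : ZeroLine S (c.perm 1)
  two : ∀ f, c.perm 0 ∈ S.vert f ∨ c.perm 1 ∈ S.vert f → S.mult f = 2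
  noty : ∀ f, c.perm 0 ∈ S.vert f ∨ c.perm 1 ∈ S.vert f → ¬ S.ty21 f
  nofull : ∀ f, c.perm 0 ∈ S.vert f ∨ c.perm 1 ∈ S.vert f → ¬ S.full f
  tri : S.tri (c.Φ 0 1 true true)

section basics

variable {n : ℕ} {S : FlagSys n}

theorem mult_congr {f g : S.F} (h : S.vert g = S.vert f) : S.mult g = S.mult f := by
  unfold FlagSys.mult
  rw [h]

theorem sum_slack_eq : ∑ f, S.slack f = ∑ V ∈ Finset.univ.image S.vert,
    ∑ g ∈ Finset.univ.filter (fun g => S.vert g = V), S.slack g := by
  rw [Finset.sum_fiberwise_of_maps_to]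
  intro x _
  exact Finset.mem_image_of_mem _ (Finset.mem_univ x)

theorem vslack_le (h : ∀ f, 0 ≤ vslack S f) (f : S.F) : vslack S f ≤ ∑ f, S.slack f := by
  rw [sum_slack_eq]
  apply Finset.single_le_sum (f := fun V => ∑ g ∈ Finset.univ.filter (fun g => S.vert g = V),
    S.slack g) _ (Finset.mem_image_of_mem _ (Finset.mem_univ f))
  intro V hV
  obtain ⟨g, _, rfl⟩ := Finset.mem_image.1 hV
  exact h g

theorem vslack_small {f : S.F} (h : S.mult f ≤ 3) : vslack S f = 0 := by
  apply Finset.sum_eq_zero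
  intro g hg
  have h1 : S.mult g = S.mult f := mult_congr (Finset.mem_filter.1 hg).2
  unfold FlagSys.slack
  rw [if_neg (by omega)]

end basics

theorem vs_nonneg {S : FlagSys 14} (hF : S.Facts) (hM : ∀ f, S.mult f ≤ 8) (f : S.F) :
    0 ≤ vslack S f := by
  rcases lt_trichotomy (S.mult f) 4 with h | h | h
  · rw [vslack_small (by omega)]
  · exact slack_four S hF hM f h
  · refine le_trans ?_ (slack_big S hF hM f h)
    have : (5 : ℤ) ≤ S.mult f := by exact_mod_cast h
    have h2 : (0 : ℤ) ≤ S.mult f - 5 := by linarith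
    positivity

theorem total_le {S : FlagSys 14} (hF : S.Facts) (hM : ∀ f, S.mult f ≤ 8)
    (htri : 360 ≤ (Finset.univ.filter S.tri).card) :
    ∑ f, (S.waste f : ℤ) + ∑ f, S.slack f ≤ 16 := by
  have h1 := discharge S hF hM
  have h2 := hF.count
  have h3 : (360 : ℤ) ≤ ((Finset.univ.filter S.tri).card : ℤ) := by exact_mod_cast htri
  push_cast at h2
  linarith

theorem le_five {S : FlagSys 14} (hF : S.Facts) (hM : ∀ f, S.mult f ≤ 8)
    (htri : 360 ≤ (Finset.univ.filter S.tri).card) (f : S.F) : S.mult f ≤ 5 := by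
  by_contra hlt
  push Not at hlt
  have h1 := total_le hF hM htri
  have h2 := vslack_le (vs_nonneg hF hM) f
  have h3 := slack_big S hF hM f (by omega)
  have h4 : (0 : ℤ) ≤ ∑ f, (S.waste f : ℤ) := Finset.sum_nonneg (fun _ _ => by positivity)
  have h5 : (6 : ℤ) ≤ S.mult f := by exact_mod_cast hlt
  have h6 : (48 : ℤ) ≤ 8 * (S.mult f : ℤ) * (S.mult f - 5) := by nlinarith
  have h7 : vslack S f ≤ 16 := by linarith
  unfold vslack at h7
  linarith

theorem front_of {S : FlagSys 14} {W : Wiring 14} (c : Chart S W)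
    (norm : ∀ j k : Fin 14, 0 < j → j < k → W.X 0 j ≤ W.X 0 k) :
    ∀ l : Fin 14, l ≠ 0 → (W.X 0 l = W.X 0 1 ↔ l.1 < S.mult (c.Φ 0 1 true true)) := by
  classical
  set A : Finset (Fin 14) := Finset.univ.filter (fun l => l = 0 ∨ W.X 0 l = W.X 0 1) with hA
  have hcard : S.mult (c.Φ 0 1 true true) = A.card := by
    have : S.vert (c.Φ 0 1 true true) = A.map c.perm.toEmbedding := by
      ext l
      have := c.mem_vert 0 1 true true (c.perm.symm l) (by decide)
      rw [Equiv.apply_symm_apply] at this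
      rw [this]
      simp only [Finset.mem_map_equiv, hA, Finset.mem_filter, Finset.mem_univ, true_and]
    unfold FlagSys.mult
    rw [this, Finset.card_map]
  have hlow : ∀ l l' : Fin 14, l' ≤ l → l ∈ A → l' ∈ A := by
    intro l l' hll hl
    simp only [hA, Finset.mem_filter, Finset.mem_univ, true_and] at hl ⊢
    by_cases h0 : l' = 0
    · exact Or.inl h0
    · right
      have hl0 : l ≠ 0 := by
        rintro rfl
        exact h0 (le_antisymm hll (Fin.zero_le _))
      have hl1 := hl.resolve_left hl0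
      rcases eq_or_lt_of_le hll with h | h
      · rw [h]
        exact hl1
      · have h1 := norm l' l (Fin.pos_of_ne_zero h0) h
        have h2 : W.X 0 1 ≤ W.X 0 l' := by
          rcases eq_or_ne l' 1 with h3 | h3
          · rw [h3]
          · apply norm 1 l' (by decide)
            have h5 : 0 < l'.1 := Nat.pos_of_ne_zero (fun h6 => h0 (Fin.ext h6))
            have h6 : l'.1 ≠ 1 := fun h7 => h3 (Fin.ext h7)
            exact Fin.lt_def.2 (show 1 < l'.1 by omega)
        linarith
  intro l hl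
  rw [hcard]
  have hmem : l ∈ A ↔ W.X 0 l = W.X 0 1 := by
    simp only [hA, Finset.mem_filter, Finset.mem_univ, true_and]
    constructor
    · intro h
      exact h.resolve_left hl
    · exact Or.inr
  rw [← hmem]
  constructor
  · intro h
    have hsub : Finset.Iic l ⊆ A := by
      intro x hx
      exact hlow l x (Finset.mem_Iic.1 hx) h
    have := Finset.card_le_card hsub
    rw [Fin.card_Iic] at this
    omega
  · intro h
    by_contra hn
    have hsub : A ⊆ Finset.Iio l := by
      intro x hx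
      rw [Finset.mem_Iio]
      by_contra hx2
      exact hn (hlow x l (not_lt.1 hx2) hx)
    have := Finset.card_le_card hsub
    rw [Fin.card_Iio] at this
    omega

/-! ### Rotation about the first vertex -/

/-- Rotation about the vertex in the direction of the face. -/
def tau {n : ℕ} (S : FlagSys n) (f : S.F) : S.F := S.s2 (S.s1 f)

section tau
variable {n : ℕ} {S : FlagSys n} (hF : S.Facts)
include hF

theorem tau_rot (f : S.F) : tau S (S.rot f) = f := by
  unfold tau FlagSys.rot
  rw [hF.s1s1, hF.s2s2]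

theorem tau_rot_iter (k : ℕ) (f : S.F) : (tau S)^[k] (S.rot^[k] f) = f :=
  Function.LeftInverse.iterate (tau_rot hF) k f

theorem tau_s2 (f : S.F) : tau S (S.s2 f) = S.s2 (S.rot f) := rfl

theorem vert_tau (f : S.F) : S.vert (tau S f) = S.vert f := by
  unfold tau
  rw [hF.vert_s2, hF.vert_s1]

theorem vert_tau_iter (k : ℕ) (f : S.F) : S.vert ((tau S)^[k] f) = S.vert f := by
  induction k generalizing f with
  | zero => rfl
  | succ k ih => rw [Function.iterate_succ_apply, ih, vert_tau hF]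

theorem tau_periodic {f : S.F} (h : S.mult f = 4) : Function.IsPeriodicPt (tau S) 8 f := by
  have h1 : S.rot^[8] f = f := by
    have := hF.rot_full f
    rwa [h] at this
  have h2 := tau_rot_iter hF 8 f
  rw [h1] at h2
  exact h2

theorem tau_iter_s2 (k : ℕ) (f : S.F) : (tau S)^[k] (S.s2 f) = S.s2 (S.rot^[k] f) := by
  induction k generalizing f with
  | zero => rfl
  | succ k ih => rw [Function.iterate_succ_apply, tau_s2 hF, ih, ← Function.iterate_succ_apply]

theorem full_s0_s2 (f : S.F) : S.full (S.s0 (S.s2 f)) ↔ S.full (S.s0 f) := by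
  rw [hF.s0s2, D2.full_s2 hF]

end tau

theorem not_adjacent {S : FlagSys 14} (hF : S.Facts) (hM : ∀ f, S.mult f ≤ 8) (f : S.F)
    (h1 : S.full (S.s0 f)) (h2 : S.full (S.s0 (tau S f))) : False := by
  unfold tau at h2
  rw [full_s0_s2 hF] at h2
  have ht : S.tri (S.s0 f) := (D2.full_tri h1).1
  have ht0 : S.tri f := (D1_tri_s0 hF f).1 ht
  have hx2 : S.mult (S.s1 (S.s0 f)) = 2 := by
    rw [D1_mult_s1 hF]
    exact h1.1
  have hx3 : S.tri (S.s1 (S.s0 f)) := (D1_tri_s1 hF _).2 ht
  have hx4 : S.tri (S.s2 (S.s1 (S.s0 f))) := by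
    rw [D2.tri_s2 hF]
    have h5 : S.full (S.s1 (S.s0 f)) := by
      have h6 := D2.rot_s2 hF (S.s0 f)
      rw [← h6]
      have h7 := (D2.full_s2 hF (S.s0 f)).2 h1
      refine ⟨?_, ?_⟩
      · rw [D2.mult_rot hF]
        exact h7.1
      · rw [D2.nc_rot hF h7.1]
        exact h7.2
    exact (D2.full_tri h5).2.1
  have h3 := D1_F2 hF hM hx2 hx3 hx4
  have h4 : S.s0 (S.s1 (S.s0 f)) = S.s1 (S.s0 (S.s1 f)) := D1_braid hF ht0
  rw [h4, D1_mult_s1 hF] at h3
  have h5 := h2.1
  omega

theorem word_lemma : ∀ w : Fin 8 → Bool, (∀ q, ¬ (w q = true ∧ w (q + 1) = true)) →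
    ∃ r : Fin 8, ∃ e : Bool, ∃ p ∈ pats, ∀ q : Fin 8,
      w (if e = true then r - q else r + q) = p q := by
  decide +kernel

/-- Some flag at the vertex sees one of the patterns. -/
theorem exists_pat {S : FlagSys 14} (hF : S.Facts) (hM : ∀ f, S.mult f ≤ 8) {f : S.F}
    (h4 : S.mult f = 4) : ∃ g, S.vert g = S.vert f ∧ ∃ p ∈ pats, ∀ q : Fin 8,
      (S.full (S.s0 ((tau S)^[q.1] g)) ↔ p q = true) := by
  have hper := tau_periodic hF h4
  have hmod : ∀ k, (tau S)^[k % 8] f = (tau S)^[k] f := fun k => hper.iterate_mod_apply k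
  obtain ⟨r, e, p, hp, hpq⟩ := word_lemma
    (fun q => decide (S.full (S.s0 ((tau S)^[q.1] f)))) (by
      intro q hq
      simp only [decide_eq_true_eq] at hq
      have h5 : (tau S)^[(q + 1).1] f = tau S ((tau S)^[q.1] f) := by
        rw [Fin.val_add, ← Function.iterate_succ_apply' (tau S)]
        exact hmod _
      rw [h5] at hq
      exact not_adjacent hF hM _ hq.1 hq.2)
  cases e with
  | false =>
    refine ⟨(tau S)^[r.1] f, vert_tau_iter hF _ _, p, hp, ?_⟩
    intro q
    have h6 := hpq q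
    simp only [Bool.false_eq_true, if_false] at h6
    rw [← h6, decide_eq_true_eq]
    have h7 : (tau S)^[(r + q).1] f = (tau S)^[q.1] ((tau S)^[r.1] f) := by
      rw [Fin.val_add, hmod, add_comm, Function.iterate_add_apply]
    rw [h7]
  | true =>
    refine ⟨S.s2 ((tau S)^[r.1] f), by rw [hF.vert_s2, vert_tau_iter hF], p, hp, ?_⟩
    intro q
    have h6 := hpq q
    simp only [if_true] at h6
    rw [← h6, decide_eq_true_eq, tau_iter_s2 hF, full_s0_s2 hF]
    have h7 : (tau S)^[(r - q).1] f = S.rot^[q.1] ((tau S)^[r.1] f) := by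
      have hrt : Function.LeftInverse S.rot (tau S) := by
        intro x
        unfold tau FlagSys.rot
        rw [hF.s2s2, hF.s1s1]
      have h8 : (tau S)^[r.1] f = (tau S)^[q.1] ((tau S)^[(r - q).1] f) := by
        rw [← Function.iterate_add_apply, ← hmod (q.1 + (r - q).1), ← hmod r.1]
        congr 1
        have h9 : (q + (r - q)).1 = r.1 := by
          abel_nf
        rw [Fin.val_add] at h9
        rw [h9]
        congr 1
        have := r.2
        omega
      rw [h8]
      exact ((hrt.iterate q.1) _).symm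
    rw [h7]

section rays
variable {S : FlagSys 14} {W : Wiring 14} (c : Chart S W)

theorem phi_congr {i a b : Fin 14} (hia : i ≠ a) (hib : i ≠ b) (h : W.X i a = W.X i b)
    (d s : Bool) : c.Φ i a d s = c.Φ i b d s :=
  (c.eq_iff i a d s i b d s hia hib).2 ⟨rfl, h, rfl, rfl⟩

theorem conc_front {m : ℕ} (front : ∀ l : Fin 14, l ≠ 0 → (W.X 0 l = W.X 0 1 ↔ l.1 < m))
    (i j : Fin 14) (hi : i.1 < m) (hj : j.1 < m) (hij : i ≠ j) : W.X i j = W.X 0 1 := by
  rcases eq_or_ne i 0 with rfl | h0
  · exact (front j hij.symm).2 hj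
  · rcases eq_or_ne j 0 with rfl | h1
    · rw [W.symm]
      exact (front i h0).2 hi
    · have h2 := (front i h0).2 hi
      have h3 := (front j h1).2 hj
      have h4 := RF.conc W (Ne.symm h0) hij (Ne.symm h1) (h2.trans h3.symm)
      rw [← h4, h2]

theorem ray_eq (h4 : S.mult (c.Φ 0 1 true true) = 4)
    (front : ∀ l : Fin 14, l ≠ 0 → (W.X 0 l = W.X 0 1 ↔ l.1 < S.mult (c.Φ 0 1 true true)))
    (q : Fin 8) : (tau S)^[q.1] (c.Φ 0 1 true true) = c.Φ (rayI q) (rayA q) (rayD q) (rayD q) := by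
  rw [h4] at front
  have hc := conc_front front
  have hco : ∀ i a b : Fin 14, i.1 < 4 → a.1 < 4 → b.1 < 4 → i ≠ a → i ≠ b → ∀ d s,
      c.Φ i a d s = c.Φ i b d s := by
    intro i a b hi ha hb hia hib d s
    apply phi_congr c hia hib
    rw [hc i a hi ha hia, hc i b hi hb hib]
  have e1 : tau S (c.Φ 0 1 true true) = c.Φ 1 0 true true := by
    unfold tau
    rw [(c.s1_right 0 1 (by decide) (fun l h1 h2 => by omega)).1, c.s2_Φ 1 0 _ _ (by decide)]
    rfl
  have e2 : tau S (c.Φ 1 0 true true) = c.Φ 2 0 true true := by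
    unfold tau
    rw [hco 1 0 2 (by decide) (by decide) (by decide) (by decide) (by decide),
      (c.s1_right 1 2 (by decide) (fun l h1 h2 => by omega)).1, c.s2_Φ 2 1 _ _ (by decide),
      hco 2 1 0 (by decide) (by decide) (by decide) (by decide) (by decide)]
    rfl
  have e3 : tau S (c.Φ 2 0 true true) = c.Φ 3 0 true true := by
    unfold tau
    rw [hco 2 0 3 (by decide) (by decide) (by decide) (by decide) (by decide),
      (c.s1_right 2 3 (by decide) (fun l h1 h2 => by omega)).1, c.s2_Φ 3 2 _ _ (by decide),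
      hco 3 2 0 (by decide) (by decide) (by decide) (by decide) (by decide)]
    rfl
  have e4 : tau S (c.Φ 3 0 true true) = c.Φ 0 1 false false := by
    unfold tau
    rw [(c.s1_top 0 3 (by decide) (fun l h1 => by
        have h0 : l ≠ 0 := by omega
        intro h2
        rw [hc 0 3 (by decide) (by decide) (by decide)] at h2
        have := (front l h0).1 h2
        omega)).1, c.s2_Φ 0 3 _ _ (by decide),
      hco 0 3 1 (by decide) (by decide) (by decide) (by decide) (by decide)]
    rfl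
  have e5 : tau S (c.Φ 0 1 false false) = c.Φ 1 0 false false := by
    unfold tau
    rw [(c.s1_left 0 1 (by decide) (fun l h1 h2 => by omega)).1, c.s2_Φ 1 0 _ _ (by decide)]
    rfl
  have e6 : tau S (c.Φ 1 0 false false) = c.Φ 2 0 false false := by
    unfold tau
    rw [hco 1 0 2 (by decide) (by decide) (by decide) (by decide) (by decide),
      (c.s1_left 1 2 (by decide) (fun l h1 h2 => by omega)).1, c.s2_Φ 2 1 _ _ (by decide),
      hco 2 1 0 (by decide) (by decide) (by decide) (by decide) (by decide)]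
    rfl
  have e7 : tau S (c.Φ 2 0 false false) = c.Φ 3 0 false false := by
    unfold tau
    rw [hco 2 0 3 (by decide) (by decide) (by decide) (by decide) (by decide),
      (c.s1_left 2 3 (by decide) (fun l h1 h2 => by omega)).1, c.s2_Φ 3 2 _ _ (by decide),
      hco 3 2 0 (by decide) (by decide) (by decide) (by decide) (by decide)]
    rfl
  fin_cases q
  · rfl
  · exact e1
  · show tau S (tau S _) = c.Φ 2 0 true true
    rw [e1, e2]
  · show tau S (tau S (tau S _)) = c.Φ 3 0 true true
    rw [e1, e2, e3]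
  · show tau S (tau S (tau S (tau S _))) = c.Φ 0 1 false false
    rw [e1, e2, e3, e4]
  · show tau S (tau S (tau S (tau S (tau S _)))) = c.Φ 1 0 false false
    rw [e1, e2, e3, e4, e5]
  · show tau S (tau S (tau S (tau S (tau S (tau S _))))) = c.Φ 2 0 false false
    rw [e1, e2, e3, e4, e5, e6]
  · show tau S (tau S (tau S (tau S (tau S (tau S (tau S _)))))) = c.Φ 3 0 false false
    rw [e1, e2, e3, e4, e5, e6, e7]

end rays

/-! ### Cases B and C -/

theorem case_big {S : FlagSys 14} (hne : ∀ f : S.F, ∃ l, l ∉ S.vert f) (hc : S.HasCharts)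
    (hF : S.Facts) (hM : ∀ f, S.mult f ≤ 8)
    (htri : 360 ≤ (Finset.univ.filter S.tri).card) (f : S.F) :
    ∃ (W : Wiring 14) (c : Chart S W), c.Φ 0 1 true true = f ∧ Std S W c := by
  obtain ⟨W, c, h1, h2, h3⟩ := hc f
  exact ⟨W, c, h1, ⟨hF, hne, hM, h2, h3, total_le hF hM htri, vs_nonneg hF hM, front_of c h2⟩⟩

theorem case_five {S : FlagSys 14} (hne : ∀ f : S.F, ∃ l, l ∉ S.vert f) (hc : S.HasCharts)
    (hF : S.Facts) (hM : ∀ f, S.mult f ≤ 8)
    (htri : 360 ≤ (Finset.univ.filter S.tri).card) (h5 : ∃ f, S.mult f = 5) :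
    ∃ (W : Wiring 14) (c : Chart S W), Std S W c ∧ CaseC S W c := by
  obtain ⟨f, hf⟩ := h5
  obtain ⟨W, c, h1, h2⟩ := case_big hne hc hF hM htri f
  exact ⟨W, c, h2, ⟨le_five hF hM htri, by rw [h1]; exact hf⟩⟩

theorem case_four {S : FlagSys 14} (hne : ∀ f : S.F, ∃ l, l ∉ S.vert f) (hc : S.HasCharts)
    (hF : S.Facts) (hM : ∀ f, S.mult f ≤ 8)
    (htri : 360 ≤ (Finset.univ.filter S.tri).card) (hle : ∀ f, S.mult f ≤ 4)
    (h4 : ∃ f, S.mult f = 4) :
    ∃ (W : Wiring 14) (c : Chart S W), Std S W c ∧ ∃ p ∈ pats, CaseB S W c p := by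
  obtain ⟨f0, hf0⟩ := h4
  obtain ⟨f, hf, hmin⟩ := Finset.exists_min_image (Finset.univ.filter (fun f => S.mult f = 4))
    (vslack S) ⟨f0, by simp [hf0]⟩
  have hf4 : S.mult f = 4 := (Finset.mem_filter.1 hf).2
  obtain ⟨g, hg, p, hp, hpq⟩ := exists_pat hF hM hf4
  have hg4 : S.mult g = 4 := by rw [mult_congr hg, hf4]
  obtain ⟨W, c, h1, h2⟩ := case_big hne hc hF hM htri g
  refine ⟨W, c, h2, p, hp, hle, by rw [h1]; exact hg4, ?_, ?_⟩
  · intro x hx
    have h3 : vslack S (c.Φ 0 1 true true) = vslack S f := by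
      rw [h1]
      unfold vslack
      rw [hg]
    rw [h3]
    exact hmin x (by simp [hx])
  · intro q s
    rw [← hpq q, ← h1, ray_eq c (by rw [h1]; exact hg4) h2.front q]
    have hne' : rayI q ≠ rayA q := by
      revert q
      decide
    by_cases hs : s = rayD q
    · rw [hs]
    · have : s = !rayD q := by
        revert hs
        cases s <;> cases rayD q <;> simp
      rw [this, ← c.s2_Φ _ _ _ _ hne', full_s0_s2 hF]

/-! ### Case A: no vertex on four lines -/

section zero
variable {n : ℕ} {S : FlagSys n} (hF : S.Facts)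
include hF

theorem nX_rot {f : S.F} (h : S.mult f = 2) : S.nX (S.rot f) = S.nX f := by
  unfold FlagSys.nX
  rw [D2.rot_four hF h]
  ring

theorem waste_rot {f : S.F} (h : S.mult f = 2) : S.waste (S.rot f) = S.waste f := by
  unfold FlagSys.waste
  have h3 : ¬ 3 ≤ S.mult f := by omega
  rw [D2.mult_rot hF, D2.nc_rot hF h, nX_rot hF h]
  simp only [if_neg h3]

theorem waste_vertex {f : S.F} (hle : S.mult f ≤ 3) (hw : S.waste f ≠ 0) :
    4 * S.mult f ≤ 3 * ∑ g ∈ Finset.univ.filter (fun g => S.vert g = S.vert f), S.waste g := by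
  classical
  have h2 := hF.two_le f
  rcases Nat.lt_or_ge (S.mult f) 3 with h | h
  · have hm : S.mult f = 2 := by omega
    have h1 : ∑ g ∈ (Finset.range 4).image (fun k => S.rot^[k] f), S.waste g ≤
        ∑ g ∈ Finset.univ.filter (fun g => S.vert g = S.vert f), S.waste g := by
      apply Finset.sum_le_sum_of_subset
      intro g hg
      obtain ⟨k, _, rfl⟩ := Finset.mem_image.1 hg
      simp [D2.vert_rot_iter hF]
    rw [Finset.sum_image (by
      intro j hj k hk hjk
      by_contra hne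
      exact D1_rot_ne hF f (by rw [hm]; simpa using hj) (by rw [hm]; simpa using hk) hne hjk)] at h1
    have h3 : ∀ k, S.waste (S.rot^[k] f) = S.waste f := by
      intro k
      induction k with
      | zero => rfl
      | succ k ih =>
        rw [Function.iterate_succ_apply', waste_rot hF (by rw [D2.mult_rot_iter hF]; exact hm), ih]
    simp only [h3, Finset.sum_const, Finset.card_range, smul_eq_mul] at h1
    have : 1 ≤ S.waste f := Nat.one_le_iff_ne_zero.2 hw
    omega
  · have hm : S.mult f = 3 := by omega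
    have h1 : S.waste f ≤ ∑ g ∈ Finset.univ.filter (fun g => S.vert g = S.vert f), S.waste g :=
      Finset.single_le_sum (f := fun g => S.waste g) (fun _ _ => Nat.zero_le _) (by simp)
    have h4 : S.waste f = 4 := by
      unfold FlagSys.waste at hw ⊢
      rw [if_pos h] at hw ⊢
      by_cases hw1 : S.W1 f
      · rw [if_pos hw1]
      · rw [if_neg hw1] at hw
        exact absurd rfl hw
    omega

theorem zero_lines (hle : ∀ f, S.mult f ≤ 3) (htot : ∑ f, S.waste f ≤ 16) (hn : n = 14) :
    ∃ i j, i ≠ j ∧ ZeroLine S i ∧ ZeroLine S j := by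
  classical
  set B : Finset (Fin n) := Finset.univ.filter (fun i => ¬ ZeroLine S i) with hB
  set V : Finset (Finset (Fin n)) := (Finset.univ.filter (fun f => S.waste f ≠ 0)).image S.vert
    with hV
  have h1 : B ⊆ V.biUnion id := by
    intro i hi
    rw [hB, Finset.mem_filter] at hi
    unfold ZeroLine at hi
    push Not at hi
    obtain ⟨f, hf1, hf2⟩ := hi.2
    rw [Finset.mem_biUnion]
    exact ⟨S.vert f, Finset.mem_image.2 ⟨f, by simp [hf2], rfl⟩, hf1⟩
  have h2 : B.card ≤ ∑ v ∈ V, v.card := (Finset.card_le_card h1).trans Finset.card_biUnion_le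
  have h3 : 4 * ∑ v ∈ V, v.card ≤ 3 * ∑ v ∈ V,
      ∑ g ∈ Finset.univ.filter (fun g => S.vert g = v), S.waste g := by
    rw [Finset.mul_sum, Finset.mul_sum]
    apply Finset.sum_le_sum
    intro v hv
    obtain ⟨f, hf, rfl⟩ := Finset.mem_image.1 hv
    exact waste_vertex hF (hle f) (Finset.mem_filter.1 hf).2
  have h4 : ∑ v ∈ V, ∑ g ∈ Finset.univ.filter (fun g => S.vert g = v), S.waste g ≤
      ∑ f, S.waste f := by
    have h5 : ∑ f, S.waste f = ∑ v ∈ Finset.univ.image S.vert,
        ∑ g ∈ Finset.univ.filter (fun g => S.vert g = v), S.waste g := by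
      rw [Finset.sum_fiberwise_of_maps_to]
      intro x _
      exact Finset.mem_image_of_mem _ (Finset.mem_univ x)
    rw [h5]
    apply Finset.sum_le_sum_of_subset
    exact Finset.image_subset_image (Finset.filter_subset _ _)
  have h6 : (Finset.univ.filter (fun i => ZeroLine S i)).card + B.card = n := by
    rw [hB, Finset.card_filter_add_card_filter_not, Finset.card_univ, Fintype.card_fin]
  have h7 : 1 < (Finset.univ.filter (fun i => ZeroLine S i)).card := by omega
  obtain ⟨i, hi, j, hj, hij⟩ := Finset.one_lt_card.1 h7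
  exact ⟨i, j, hij, (Finset.mem_filter.1 hi).2, (Finset.mem_filter.1 hj).2⟩

theorem odd_line (i : Fin n) (h : ∀ f, S.line f = i → S.mult f = 3) : 2 ∣ n - 1 := by
  classical
  set V : Finset (Finset (Fin n)) := (Finset.univ.filter (fun f => S.line f = i)).image S.vert
    with hV
  have h1 : Finset.univ.erase i = V.biUnion (fun v => v.erase i) := by
    ext j
    simp only [Finset.mem_erase, Finset.mem_univ, and_true, Finset.mem_biUnion]
    constructor
    · intro hj
      obtain ⟨f, hf, hjf⟩ := hF.cover i j hj.symm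
      exact ⟨S.vert f, Finset.mem_image.2 ⟨f, by simp [hf], rfl⟩, hj, hjf⟩
    · rintro ⟨v, _, hj, _⟩
      exact hj
  have h2 : (Finset.univ.erase i).card = ∑ v ∈ V, (v.erase i).card := by
    rw [h1, Finset.card_biUnion]
    intro v hv w hw hvw
    show Disjoint (v.erase i) (w.erase i)
    rw [Finset.disjoint_left]
    intro j hjv hjw
    apply hvw
    obtain ⟨f, hf, rfl⟩ := Finset.mem_image.1 hv
    obtain ⟨g, hg, rfl⟩ := Finset.mem_image.1 hw
    have hf' := (Finset.mem_filter.1 hf).2
    have hg' := (Finset.mem_filter.1 hg).2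
    rw [Finset.mem_erase] at hjv hjw
    exact hF.two_lines f g i j hjv.1.symm (hf' ▸ hF.line_mem f) hjv.2 (hg' ▸ hF.line_mem g) hjw.2
  have h3 : ∀ v ∈ V, (v.erase i).card = 2 := by
    intro v hv
    obtain ⟨f, hf, rfl⟩ := Finset.mem_image.1 hv
    have hf' := (Finset.mem_filter.1 hf).2
    rw [Finset.card_erase_of_mem (hf' ▸ hF.line_mem f)]
    have := h f hf'
    unfold FlagSys.mult at this
    omega
  rw [Finset.sum_congr rfl h3, Finset.card_erase_of_mem (Finset.mem_univ _), Finset.card_univ,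
    Fintype.card_fin, Finset.sum_const, smul_eq_mul] at h2
  exact ⟨V.card, by omega⟩

theorem ty21_s1 {f : S.F} (h : S.ty21 f) : S.ty21 (S.s1 f) := by
  have h1 : S.mult (S.s2 f) = 2 := by rw [D2.mult_s2 hF]; exact h.1
  refine ⟨by rw [D1_mult_s1 hF]; exact h.1, ?_, ?_⟩
  · rw [← D2.rot_s2 hF, D2.nc_rot hF h1, D2.nc_s2 hF h.1]
    exact h.2.1
  · rw [D1_tri_s1 hF]
    exact h.2.2

theorem full_s1 {f : S.F} (h : S.full f) : S.full (S.s1 f) := by
  have h1 : S.mult (S.s2 f) = 2 := by rw [D2.mult_s2 hF]; exact h.1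
  refine ⟨by rw [D1_mult_s1 hF]; exact h.1, ?_⟩
  rw [← D2.rot_s2 hF, D2.nc_rot hF h1, D2.nc_s2 hF h.1]
  exact h.2

theorem line_rot2 {f : S.F} (h : S.mult f = 2) : S.line (S.rot (S.rot f)) = S.line f := by
  have := hF.rot_line_opp f
  rw [h] at this
  exact this

/-- From a flag on the vertex to one on the line `i`. -/
theorem on_line_of {i : Fin n} {f : S.F} (hi : i ∈ S.vert f) :
    ∃ g, S.vert g = S.vert f ∧ S.line g = i := by
  obtain ⟨k, _, hk⟩ := hF.mem_orbit f i hi
  exact ⟨S.rot^[k] f, D2.vert_rot_iter hF _ _, hk⟩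

end zero

section chart2
variable {S : FlagSys 14} {W : Wiring 14} {c : Chart S W} (h : Std S W c)
include h

theorem line_std : S.line (c.Φ 0 1 true true) = c.perm 0 := c.line_Φ 0 1 _ _ (by decide)

theorem rot2_std (h2 : S.mult (c.Φ 0 1 true true) = 2) :
    S.rot (S.rot (c.Φ 0 1 true true)) = c.Φ 0 1 false false := by
  unfold FlagSys.rot
  rw [c.s2_Φ 0 1 _ _ (by decide), Bool.not_true, (c.s1_bot 0 1 (by decide) (fun l hl => by
    have h0 : l ≠ 0 := by omega
    intro h1
    have := (h.front l h0).1 h1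
    rw [h2] at this
    omega)).1, c.s2_Φ 1 0 _ _ (by decide), Bool.not_false,
    (c.s1_left 0 1 (by decide) (fun l h1 h2 => by omega)).2]

theorem s0_std : S.s0 (c.Φ 0 1 false false) = c.Φ 0 13 true true := by
  apply (c.s0_wrap 0 13 1 true (by decide) (by decide) _).2
  intro l hl
  have h0 : 0 < l := Fin.pos_of_ne_zero hl
  constructor
  · rcases eq_or_ne l 13 with h1 | h1
    · rw [h1]
    · exact h.norm l 13 h0 (by omega)
  · rcases eq_or_ne l 1 with h1 | h1
    · rw [h1]
    · exact h.norm 1 l (by decide) (by omega)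

end chart2

theorem case_three {S : FlagSys 14} (hne : ∀ f : S.F, ∃ l, l ∉ S.vert f) (hc : S.HasCharts)
    (hF : S.Facts) (hM : ∀ f, S.mult f ≤ 8)
    (htri : 360 ≤ (Finset.univ.filter S.tri).card) (hle : ∀ f, S.mult f ≤ 3) :
    ∃ (W : Wiring 14) (c : Chart S W), Std S W c ∧
      (CaseA1 S W c ∨ CaseA2 S W c ∨ CaseA3 S W c ∨ CaseA5 S W c) := by
  classical
  have hsl : ∑ f, S.slack f = 0 := by
    apply Finset.sum_eq_zero
    intro f _
    unfold FlagSys.slack
    rw [if_neg (by have := hle f; omega)]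
  have htot : ∑ f, S.waste f ≤ 16 := by
    have := total_le hF hM htri
    rw [hsl, add_zero] at this
    exact_mod_cast this
  obtain ⟨i0, i1, hi, hz0, hz1⟩ := zero_lines hF hle htot rfl
  by_cases h1 : ∃ i, ZeroLine S i ∧ ∃ f, i ∈ S.vert f ∧ S.ty21 f
  · obtain ⟨i, hzi, f, hf1, hf2⟩ := h1
    have h2 : ∃ g, S.line g = i ∧ S.ty21 g := by
      by_cases h3 : i = S.line f
      · exact ⟨f, h3.symm, hf2⟩
      · exact ⟨S.s1 f, (D2.two_case hF hf2.1 hf1 h3).symm, ty21_s1 hF hf2⟩
    obtain ⟨g, hg1, hg2⟩ := h2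
    obtain ⟨W, c, h4, h5⟩ := case_big hne hc hF hM htri (S.rot (S.rot g))
    have h6 : S.mult (c.Φ 0 1 true true) = 2 := by
      rw [h4, D2.mult_rot hF, D2.mult_rot hF]
      exact hg2.1
    have h7 : c.Φ 0 1 false false = g := by
      rw [← rot2_std h5 h6, h4, D2.rot_four hF hg2.1]
    have h8 : c.perm 0 = i := by
      rw [← line_std h5, h4, line_rot2 hF hg2.1, hg1]
    refine ⟨W, c, h5, Or.inl ⟨⟨hle, by rw [h8]; exact hzi⟩, by rw [h7]; exact hg2⟩⟩
  push Not at h1
  by_cases h2 : ∃ i, ZeroLine S i ∧ ∃ f, i ∈ S.vert f ∧ S.full f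
  · obtain ⟨i, hzi, f, hf1, hf2⟩ := h2
    have h2 : ∃ g, S.line g = i ∧ S.full g := by
      by_cases h3 : i = S.line f
      · exact ⟨f, h3.symm, hf2⟩
      · exact ⟨S.s1 f, (D2.two_case hF hf2.1 hf1 h3).symm, full_s1 hF hf2⟩
    obtain ⟨g, hg1, hg2⟩ := h2
    obtain ⟨W, c, h4, h5⟩ := case_big hne hc hF hM htri g
    have h8 : c.perm 0 = i := by
      rw [← line_std h5, h4, hg1]
    refine ⟨W, c, h5, Or.inr (Or.inl ⟨⟨hle, by rw [h8]; exact hzi⟩, ?_, by rw [h4]; exact hg2⟩)⟩
    intro x hx
    rw [h8] at hx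
    exact h1 i hzi x hx
  push Not at h2
  by_cases h3 : ∃ i, ZeroLine S i ∧ (∃ f, S.line f = i ∧ S.mult f = 2) ∧
      (∃ f, S.line f = i ∧ S.mult f ≠ 2)
  · obtain ⟨i, hzi, ⟨f, hf1, hf2⟩, ⟨f', hf1', hf2'⟩⟩ := h3
    have h4 : ∃ g, S.line g = i ∧ S.mult g = 2 ∧ S.mult (S.s0 g) ≠ 2 := by
      by_contra hcon
      push Not at hcon
      exact hf2' (hF.line_conn i (fun V => V.card = 2) (fun g hg hg2 => hcon g hg hg2)
        ⟨f, hf1, hf2⟩ f' hf1')
    obtain ⟨g, hg1, hg2, hg3⟩ := h4
    have hg4 : S.mult (S.s0 g) = 3 := by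
      have := hle (S.s0 g)
      have := hF.two_le (S.s0 g)
      omega
    obtain ⟨W, c, h4, h5⟩ := case_big hne hc hF hM htri (S.rot (S.rot g))
    have h6 : S.mult (c.Φ 0 1 true true) = 2 := by
      rw [h4, D2.mult_rot hF, D2.mult_rot hF]
      exact hg2
    have h7 : c.Φ 0 1 false false = g := by
      rw [← rot2_std h5 h6, h4, D2.rot_four hF hg2]
    have h8 : c.perm 0 = i := by
      rw [← line_std h5, h4, line_rot2 hF hg2, hg1]
    refine ⟨W, c, h5, Or.inr (Or.inr (Or.inl ⟨⟨hle, by rw [h8]; exact hzi⟩, ?_, ?_, h6, ?_⟩))⟩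
    · intro x hx
      rw [h8] at hx
      exact h1 i hzi x hx
    · intro x hx
      rw [h8] at hx
      exact h2 i hzi x hx
    · rw [← s0_std h5, h7, hg4]
  push Not at h3
  have htwo : ∀ i, ZeroLine S i → ∀ f, i ∈ S.vert f → S.mult f = 2 := by
    intro i hzi f hif
    obtain ⟨g, hg1, hg2⟩ := on_line_of hF hif
    rw [← mult_congr hg1]
    by_contra hcon
    have h4 : ∀ f, S.line f = i → S.mult f = 3 := by
      intro x hx
      have h5 : S.mult x ≠ 2 := by
        intro h6
        exact hcon (h3 i hzi ⟨x, hx, h6⟩ g hg2)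
      have := hle x
      have := hF.two_le x
      omega
    have := odd_line hF i h4
    omega
  obtain ⟨f, hf1, hf2⟩ := hF.cover i0 i1 hi
  have hf0 : i0 ∈ S.vert f := hf1 ▸ hF.line_mem f
  have hm := htwo i0 hz0 f hf0
  have hnc : S.nc f ≤ 2 := by
    have h4 := hz0 f hf0
    unfold FlagSys.waste at h4
    rw [if_neg (by omega)] at h4
    by_cases h5 : S.nc f = 0
    · omega
    · rw [if_neg h5] at h4
      omega
  have h4 : ∃ g, S.line g = i0 ∧ S.vert g = S.vert f ∧ S.tri g := by
    by_cases t0 : S.tri f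
    · exact ⟨f, hf1, rfl, t0⟩
    by_cases t1 : S.tri (S.rot f)
    · exact ⟨S.s2 f, by rw [hF.line_s2, hf1], hF.vert_s2 f, (D2.tri_s2 hF f).2 t1⟩
    by_cases t2 : S.tri (S.rot (S.rot f))
    · exact ⟨S.rot (S.rot f), by rw [line_rot2 hF hm, hf1],
        by rw [D2.vert_rot hF, D2.vert_rot hF], t2⟩
    by_cases t3 : S.tri (S.rot (S.rot (S.rot f)))
    · refine ⟨S.s2 (S.rot (S.rot f)), by rw [hF.line_s2, line_rot2 hF hm, hf1],
        by rw [hF.vert_s2, D2.vert_rot hF, D2.vert_rot hF], (D2.tri_s2 hF _).2 t3⟩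
    exfalso
    unfold FlagSys.nc at hnc
    rw [if_neg t0, if_neg t1, if_neg t2, if_neg t3] at hnc
    omega
  obtain ⟨g, hg1, hg2, hg3⟩ := h4
  obtain ⟨W, c, h5, h6⟩ := case_big hne hc hF hM htri g
  have h8 : c.perm 0 = i0 := by
    rw [← line_std h6, h5, hg1]
  have h9 : c.perm 1 = i1 := by
    have h10 : c.perm (c.perm.symm i1) ∈ S.vert (c.Φ 0 1 true true) := by
      rw [Equiv.apply_symm_apply, h5, hg2]
      exact hf2
    rw [c.mem_vert 0 1 true true _ (by decide)] at h10
    have h11 : c.perm.symm i1 ≠ 0 := by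
      intro h12
      apply hi
      rw [← h8, ← h12, Equiv.apply_symm_apply]
    have h13 := h10.resolve_left h11
    have h14 := (h6.front _ h11).1 h13
    have h15 : S.mult (c.Φ 0 1 true true) = 2 := by
      rw [h5, mult_congr hg2, hm]
    rw [h15] at h14
    have h16 : c.perm.symm i1 = 1 := by
      have : (c.perm.symm i1).1 ≠ 0 := fun h17 => h11 (Fin.ext h17)
      apply Fin.ext
      show (c.perm.symm i1).1 = 1
      omega
    rw [← h16, Equiv.apply_symm_apply]
  refine ⟨W, c, h6, Or.inr (Or.inr (Or.inr ⟨⟨hle, by rw [h8]; exact hz0⟩,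
    by rw [h9]; exact hz1, ?_, ?_, ?_, by rw [h5]; exact hg3⟩))⟩
  · rw [h8, h9]
    rintro x (hx | hx)
    · exact htwo i0 hz0 x hx
    · exact htwo i1 hz1 x hx
  · rw [h8, h9]
    rintro x (hx | hx)
    · exact h1 i0 hz0 x hx
    · exact h1 i1 hz1 x hx
  · rw [h8, h9]
    rintro x (hx | hx)
    · exact h2 i0 hz0 x hx
    · exact h2 i1 hz1 x hx

/-- The case split. -/
theorem case_split (S : FlagSys 14) (hne : ∀ f : S.F, ∃ l, l ∉ S.vert f) (hc : S.HasCharts)
    (htri : 360 ≤ (Finset.univ.filter S.tri).card) :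
    ∃ (W : Wiring 14) (c : Chart S W), Std S W c ∧
      (CaseC S W c ∨ (∃ p ∈ pats, CaseB S W c p) ∨
        CaseA1 S W c ∨ CaseA2 S W c ∨ CaseA3 S W c ∨ CaseA5 S W c) := by
  have h0 : ∃ f, f ∈ Finset.univ.filter S.tri := by
    apply Finset.card_pos.1
    omega
  obtain ⟨f0, _⟩ := h0
  obtain ⟨W0, c0, _⟩ := hc f0
  have hF := facts_of_chart S W0 c0 hne
  have hM := mult_le_eight S hF htri
  by_cases h5 : ∃ f, S.mult f = 5
  · obtain ⟨W, c, h1, h2⟩ := case_five hne hc hF hM htri h5
    exact ⟨W, c, h1, Or.inl h2⟩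
  · push Not at h5
    have hle : ∀ f, S.mult f ≤ 4 := by
      intro f
      have := le_five hF hM htri f
      have := h5 f
      omega
    by_cases h4 : ∃ f, S.mult f = 4
    · obtain ⟨W, c, h1, h2⟩ := case_four hne hc hF hM htri hle h4
      exact ⟨W, c, h1, Or.inr (Or.inl h2)⟩
    · push Not at h4
      have hle3 : ∀ f, S.mult f ≤ 3 := by
        intro f
        have := hle f
        have := h4 f
        omega
      obtain ⟨W, c, h1, h2⟩ := case_three hne hc hF hM htri hle3
      exact ⟨W, c, h1, Or.inr (Or.inr h2)⟩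

end Pool.Agent.Helper54.PL
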